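import Pool.Agent.K3h30.NH.Newton
import Pool.Agent.TH30.Ord.Bounds
import Pool.Agent.W528.Ord.MotMain
import Pool.Agent.W528.Ord.AllEll

/-!
# The sets of the embeddings at which the Newton polygon leaves the Hodge polygon
-/

set_option autoImplicit false
set_option linter.all false

namespace Pool.Agent.K3h30.NH

open NumberField IsDedekindDomain Polynomial Filter Topology
open Pool.Agent.W401.Cheb Pool.Agent.W528.Ord
open Pool.Agent.W528.Ord.MultSystem (mv IsDeg1 IsOver)

section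

variable {K : Type} [Field K] [NumberField K] {ℓ : ℕ} [Fact ℓ.Prime]

/-- the embeddings `σ` at which the Newton polygon of the `σ`-part, for `τ`, lies strictly above the
Hodge polygon at `k` -/
def fails (A : MotSystem K ℓ) (v : HeightOneSpectrum (𝓞 K)) {p : ℕ} [Fact p.Prime]
    (τ : AlgebraicClosure K →+* PadicAlgCl p) (k : ℕ) : Set (A.E →+* AlgebraicClosure K) :=
  {σ | k ≤ A.n ∧ Low (A.poly v (τ.comp σ)) ((1 / (p : ℝ)) ^ A.hp σ k) (A.n - k)}

/-- the sets `B k` are empty at the end points `k = 0` and `k = n` -/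
def Inner (A : MotSystem K ℓ) (B : ℕ → Set (A.E →+* AlgebraicClosure K)) : Prop :=
  ∀ k, (B k).Nonempty → 0 < k ∧ k < A.n

/-- the sets `B k` are stable under `γ` -/
def Stable (A : MotSystem K ℓ) (γ : GK K) (B : ℕ → Set (A.E →+* AlgebraicClosure K)) : Prop :=
  ∀ k, ∀ σ ∈ B k, mv γ σ ∈ B k

/-- complex conjugation takes `B k` to `B (n - k)` -/
def SelfDual (A : MotSystem K ℓ) (B : ℕ → Set (A.E →+* AlgebraicClosure K)) : Prop :=
  ∀ k ≤ A.n, ∀ σ ∈ B k, σ.comp (A.conj : A.E →+* A.E) ∈ B (A.n - k)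

/-- if `σ` is in `B k` for a point `k` inside of an edge of its Hodge polygon, then it is in `B k₁` or in
`B k₂`, where `k₁`, `k₂` are the ends of the edge, or any other points of the edge around `k` -/
def Convex (A : MotSystem K ℓ) (B : ℕ → Set (A.E →+* AlgebraicClosure K)) : Prop :=
  ∀ (σ : A.E →+* AlgebraicClosure K) (k₁ k k₂ : ℕ), k₁ < k → k < k₂ → k₂ ≤ A.n →
    (∀ i, k₁ ≤ i → i < k₂ → (A.h σ).getD i 0 = (A.h σ).getD k₁ 0) → σ ∈ B k → σ ∈ B k₁ ∨ σ ∈ B k₂

/-- if `B k` is not empty, it has fewer elements than half the Hodge defect at `k` -/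
def Small (A : MotSystem K ℓ) (B : ℕ → Set (A.E →+* AlgebraicClosure K)) : Prop :=
  ∀ k, (B k).Nonempty → 2 * ((B k).ncard : ℤ) < A.defect k

/-- The families `B` of sets of embeddings which have the properties of the sets `fails` at almost all
places with Frobenius element `γ`: nothing happens at the end points; `B k` is stable under `γ`;
complex conjugation takes `B k` to `B (n - k)`; convexity; and `B k`, if it is not empty, has fewer
elements than half the Hodge defect at `k`. -/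
structure IsExcess (A : MotSystem K ℓ) (γ : GK K) (B : ℕ → Set (A.E →+* AlgebraicClosure K)) : Prop where
  inner : Inner A B
  stable : Stable A γ B
  conj : SelfDual A B
  edge : Convex A B
  small : Small A B

/-- the largest possible number of pairs of an embedding and a step of its Hodge polygon such that one
end of the step is in `B` -/
noncomputable def number (A : MotSystem K ℓ) (γ : GK K) : ℕ :=
  sSup {b | ∃ B : ℕ → Set (A.E →+* AlgebraicClosure K), IsExcess A γ B ∧
    ∑ i ∈ Finset.range A.n, (B i ∪ B (i + 1)).ncard = b}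

theorem number_bdd (A : MotSystem K ℓ) (γ : GK K) :
    BddAbove {b | ∃ B : ℕ → Set (A.E →+* AlgebraicClosure K), IsExcess A γ B ∧
      ∑ i ∈ Finset.range A.n, (B i ∪ B (i + 1)).ncard = b} := by
  refine ⟨∑ i ∈ Finset.range A.n, Nat.card (A.E →+* AlgebraicClosure K), ?_⟩
  rintro b ⟨B, -, rfl⟩
  exact Finset.sum_le_sum fun i _ => Set.ncard_le_card _

theorem le_number {A : MotSystem K ℓ} {γ : GK K} {B : ℕ → Set (A.E →+* AlgebraicClosure K)}
    (h : IsExcess A γ B) : ∑ i ∈ Finset.range A.n, (B i ∪ B (i + 1)).ncard ≤ number A γ :=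
  le_csSup (number_bdd A γ) ⟨B, h, rfl⟩

theorem number_le {A : MotSystem K ℓ} {γ : GK K} {N : ℕ}
    (h : ∀ B : ℕ → Set (A.E →+* AlgebraicClosure K), IsExcess A γ B →
      ∑ i ∈ Finset.range A.n, (B i ∪ B (i + 1)).ncard ≤ N) :
    number A γ ≤ N := by
  unfold number
  rcases Set.eq_empty_or_nonempty {b | ∃ B : ℕ → Set (A.E →+* AlgebraicClosure K), IsExcess A γ B ∧
    ∑ i ∈ Finset.range A.n, (B i ∪ B (i + 1)).ncard = b} with h0 | h0
  · rw [h0]
    simp
  · apply csSup_le h0
    rintro b ⟨B, hB, rfl⟩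
    exact h B hB

theorem number_conj {A : MotSystem K ℓ}
    (hr : ∀ (γ : GK K) (σ : A.E →+* AlgebraicClosure K), A.h (mv γ σ) = A.h σ) (γ τ : GK K) :
    number A (τ * γ * τ⁻¹) ≤ number A γ := by
  apply number_le
  intro B hB
  have hc : ∀ k, (mv τ⁻¹ '' B k).ncard = (B k).ncard := fun k =>
    Set.ncard_image_of_injective (B k) (MultSystem.mv_inj τ⁻¹)
  have hE : IsExcess A γ (fun k => mv τ⁻¹ '' B k) := by
    refine ⟨?_, ?_, ?_, ?_, ?_⟩
    · intro k hk
      exact hB.inner k (Set.image_nonempty.mp hk)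
    · rintro k _ ⟨σ, hσ, rfl⟩
      refine ⟨mv (τ * γ * τ⁻¹) σ, hB.stable k σ hσ, ?_⟩
      rw [← MultSystem.mv_mul, ← MultSystem.mv_mul]
      congr 1
      group
    · rintro k hk _ ⟨σ, hσ, rfl⟩
      exact ⟨_, hB.conj k hk σ hσ, rfl⟩
    · rintro _ k₁ k k₂ h1 h2 h3 h4 ⟨σ, hσ, rfl⟩
      rw [hr] at h4
      rcases hB.edge σ k₁ k k₂ h1 h2 h3 h4 hσ with h | h
      · exact Or.inl ⟨σ, h, rfl⟩
      · exact Or.inr ⟨σ, h, rfl⟩
    · intro k hk
      show 2 * ((mv τ⁻¹ '' B k).ncard : ℤ) < _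
      rw [hc k]
      exact hB.small k (Set.image_nonempty.mp hk)
  refine le_trans (le_of_eq ?_) (le_number hE)
  apply Finset.sum_congr rfl
  intro i _
  rw [← Set.image_union, Set.ncard_image_of_injective _ (MultSystem.mv_inj τ⁻¹)]

theorem number_fix {ι : Type} [Fintype ι] (A : ι → MotSystem K ℓ) (i : ι) {γ u : GK K}
    (hu : u ∈ MotSystem.fixU A) : number (A i) (γ * u) ≤ number (A i) γ := by
  apply number_le
  intro B hB
  refine le_number ⟨hB.inner, ?_, hB.conj, hB.edge, hB.small⟩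
  intro k σ hσ
  have := hB.stable k σ hσ
  rwa [MultSystem.mv_mul, hu i σ] at this

theorem mv_pow_mem {A : MotSystem K ℓ} {γ : GK K} {B : ℕ → Set (A.E →+* AlgebraicClosure K)}
    (hB : IsExcess A γ B) (k : ℕ) {σ : A.E →+* AlgebraicClosure K} (hσ : σ ∈ B k) (j : ℕ) :
    mv (γ ^ j) σ ∈ B k := by
  induction j with
  | zero => rwa [pow_zero, MultSystem.mv_one]
  | succ j ih =>
    rw [pow_succ', MultSystem.mv_mul]
    exact hB.stable k _ ih

/-- an edge of the Hodge polygon: from a point to the neighbouring vertices -/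
theorem exists_vertex {A : MotSystem K ℓ} {γ : GK K} {B : ℕ → Set (A.E →+* AlgebraicClosure K)}
    (hl : ∀ σ, (A.h σ).Pairwise (· ≤ ·)) (hn : ∀ σ, (A.h σ).length = A.n)
    (hB : IsExcess A γ B) (k : ℕ) {σ : A.E →+* AlgebraicClosure K} (hσ : σ ∈ B k) :
    ∃ k', A.Vertex σ k' ∧ σ ∈ B k' := by
  classical
  have hk := hB.inner k ⟨σ, hσ⟩
  by_contra hcon
  push Not at hcon
  -- the largest `k₁ < k` at which the slope changes, or `0`
  have hnv : ¬ A.Vertex σ k := fun h => hcon k h hσ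
  have hconst : ∀ a b : ℕ, a < b → b ≤ A.n → (∀ j, a < j → j < b → ¬ A.Vertex σ j) →
      ∀ i, a ≤ i → i < b → (A.h σ).getD i 0 = (A.h σ).getD a 0 := by
    intro a b hab hb hno i hai
    induction i, hai using Nat.le_induction with
    | base => intro _; rfl
    | succ i hai ih =>
      intro hib
      rw [← ih (by omega)]
      have h1 := hno (i + 1) (by omega) hib
      have h2 : ¬ ((A.h σ).getD i 0 < (A.h σ).getD (i + 1) 0) := by
        intro h3
        exact h1 ⟨by omega, by omega, by simpa using h3⟩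
      have h4 : (A.h σ).getD i 0 ≤ (A.h σ).getD (i + 1) 0 := by
        have hi1 : i + 1 < (A.h σ).length := by rw [hn σ]; omega
        rw [List.getD_eq_getElem _ _ hi1, List.getD_eq_getElem _ _ (by omega : i < (A.h σ).length)]
        exact List.pairwise_iff_getElem.mp (hl σ) i (i + 1) (by omega) hi1 (by omega)
      omega
  -- induction on the distance
  have key : ∀ N k₁ k₂ : ℕ, k₂ - k₁ ≤ N → k₁ < k → k < k₂ → k₂ ≤ A.n →
      (∀ j, k₁ < j → j < k → ¬ A.Vertex σ j) → (∀ j, k < j → j < k₂ → ¬ A.Vertex σ j) →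
      (A.Vertex σ k₁ ∨ k₁ = 0) → (A.Vertex σ k₂ ∨ k₂ = A.n) → False := by
    intro N k₁ k₂ _ h1 h2 h3 h4 h5 h6 h7
    have hno : ∀ j, k₁ < j → j < k₂ → ¬ A.Vertex σ j := by
      intro j hj1 hj2
      rcases lt_trichotomy j k with h | h | h
      · exact h4 j hj1 h
      · rw [h]; exact hnv
      · exact h5 j h hj2
    rcases hB.edge σ k₁ k k₂ h1 h2 h3 (hconst k₁ k₂ (by omega) h3 hno) hσ with h | h
    · rcases h6 with h6 | h6
      · exact hcon k₁ h6 h
      · have := hB.inner k₁ ⟨σ, h⟩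
        omega
    · rcases h7 with h7 | h7
      · exact hcon k₂ h7 h
      · have := hB.inner k₂ ⟨σ, h⟩
        omega
  -- choose `k₁`
  obtain ⟨k₁, hk1, hk1v, hk1m⟩ : ∃ k₁, k₁ < k ∧ (A.Vertex σ k₁ ∨ k₁ = 0) ∧
      ∀ j, k₁ < j → j < k → ¬ A.Vertex σ j := by
    by_cases hex : ∃ j, j < k ∧ A.Vertex σ j
    · let s := (Finset.range k).filter fun j => A.Vertex σ j
      have hs : s.Nonempty := by
        obtain ⟨j, hj, hj'⟩ := hex
        exact ⟨j, Finset.mem_filter.mpr ⟨Finset.mem_range.mpr hj, hj'⟩⟩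
      have hmem := Finset.max'_mem s hs
      have hmem' := Finset.mem_filter.mp hmem
      refine ⟨s.max' hs, Finset.mem_range.mp hmem'.1, Or.inl hmem'.2, ?_⟩
      intro j hj1 hj2 hj3
      have := Finset.le_max' s j (Finset.mem_filter.mpr ⟨Finset.mem_range.mpr hj2, hj3⟩)
      omega
    · push Not at hex
      exact ⟨0, hk.1, Or.inr rfl, fun j _ hj => hex j hj⟩
  obtain ⟨k₂, hk2, hk2n, hk2v, hk2m⟩ : ∃ k₂, k < k₂ ∧ k₂ ≤ A.n ∧ (A.Vertex σ k₂ ∨ k₂ = A.n) ∧
      ∀ j, k < j → j < k₂ → ¬ A.Vertex σ j := by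
    by_cases hex : ∃ j, k < j ∧ j < A.n ∧ A.Vertex σ j
    · let s := (Finset.range A.n).filter fun j => k < j ∧ A.Vertex σ j
      have hs : s.Nonempty := by
        obtain ⟨j, hj, hj', hj''⟩ := hex
        exact ⟨j, Finset.mem_filter.mpr ⟨Finset.mem_range.mpr hj', hj, hj''⟩⟩
      have hmem := Finset.min'_mem s hs
      have hmem' := Finset.mem_filter.mp hmem
      have hlt := Finset.mem_range.mp hmem'.1
      refine ⟨s.min' hs, hmem'.2.1, hlt.le, Or.inl hmem'.2.2, ?_⟩
      intro j hj1 hj2 hj3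
      have := Finset.min'_le s j (Finset.mem_filter.mpr ⟨Finset.mem_range.mpr (by omega), hj1, hj3⟩)
      omega
    · push Not at hex
      exact ⟨A.n, hk.2, le_refl _, Or.inr rfl, fun j hj1 hj2 => hex j hj1 hj2⟩
  exact key (k₂ - k₁) k₁ k₂ le_rfl hk1 hk2 hk2n hk1m hk2m hk1v hk2v

/-- **under the orbit condition there is no excess** -/
theorem number_adm {A : MotSystem K ℓ} {γ : GK K}
    (hl : ∀ σ, (A.h σ).Pairwise (· ≤ ·)) (hn : ∀ σ, (A.h σ).length = A.n)
    (hadm : A.Admissible γ) : number A γ = 0 := by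
  apply Nat.le_zero.mp
  apply number_le
  intro B hB
  have hempty : ∀ k, B k = ∅ := by
    intro k
    by_contra hne
    obtain ⟨σ, hσ⟩ := Set.nonempty_iff_ne_empty.mpr hne
    obtain ⟨k', hk', hσ'⟩ := exists_vertex hl hn hB k hσ
    have h1 := hadm σ k' hk'
    have h2 := hB.small k' ⟨σ, hσ'⟩
    have hsub : A.orb γ σ k' ⊆ B k' := by
      rintro σ' ⟨j, h | ⟨h2k, h⟩⟩
      · rw [h]
        exact mv_pow_mem hB k' hσ' j
      · rw [h]
        have h3 := hB.conj k' hk'.2.1.le σ hσ'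
        rw [show A.n - k' = k' by omega] at h3
        exact mv_pow_mem hB k' h3 j
    have h3 : ((A.orb γ σ k').ncard : ℤ) ≤ ((B k').ncard : ℤ) := by
      exact_mod_cast Set.ncard_le_ncard hsub (Set.toFinite _)
    linarith
  apply le_of_eq
  apply Finset.sum_eq_zero
  intro i _
  rw [hempty, hempty, Set.union_empty, Set.ncard_empty]

end

end Pool.Agent.K3h30.NH
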