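import Pool.Agent.K3h30.NH.Excess

/-!
# At a good place the sets `fails` form an excess family
-/

set_option autoImplicit false
set_option linter.all false

namespace Pool.Agent.K3h30.NH

open NumberField IsDedekindDomain Polynomial Filter Topology
open Pool.Agent.W401.Cheb Pool.Agent.W528.Ord
open Pool.Agent.W528.Ord.MultSystem (mv IsDeg1 IsOver)

section

variable {K : Type} [Field K] [NumberField K] {ℓ : ℕ} [Fact ℓ.Prime]

/-- the place `v` is good: it has degree one, its residue characteristic is not in `S`, and, for every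
`A i` for which some Hodge polygon has a vertex and all `0 < k < n`, the average of the valuations of the
`k`-th coefficients of the Frobenius polynomials is smaller than half the largest possible value -/
def GoodPlace {ι : Type} (A : ι → MotSystem K ℓ) (S : Finset ℕ) (v : HeightOneSpectrum (𝓞 K)) : Prop :=
  IsDeg1 S v ∧ ∀ i, (∃ σ k, (A i).Vertex σ k) → ∀ k, 0 < k → k < (A i).n → ∀ Q, IsOver Q v →
    ∀ u : ((A i).E →+* AlgebraicClosure K) → ℕ,
      (∀ σ, LocDvd Q (Ideal.absNorm v.asIdeal) (u σ) ((A i).cof v ((A i).n - k) σ)) →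
      2 * ∑ σ, u σ < (A i).w * k * Module.finrank ℚ (A i).E

/-- **the average of the valuations of the coefficients is smaller than half the maximum**, up to a set
of places of density zero -/
theorem dens_sum {A : MotSystem K ℓ} {χ : GK K →* (PadicAlgCl ℓ)ˣ} {S : Finset ℕ} (hA : A.IsMotive χ S)
    (hex : ∃ σ k, A.Vertex σ k) (k : ℕ) (hk0 : 0 < k) (hkn : k < A.n) :
    Tendsto (dens fun v : HeightOneSpectrum (𝓞 K) => IsDeg1 S v ∧
      ∃ Q, IsOver Q v ∧ ∃ u : (A.E →+* AlgebraicClosure K) → ℕ,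
        (∀ σ, LocDvd Q (Ideal.absNorm v.asIdeal) (u σ) (A.cof v (A.n - k) σ)) ∧
        A.w * k * Module.finrank ℚ A.E ≤ 2 * ∑ σ, u σ) atTop (𝓝 0) := by
  refine engine A.ρ χ hA.isCont.1 hA.isCont.2 hA.connected k A.w hk0 hkn A.P
    (fun v => IsDeg1 S v)
    (fun v hv => hv.1) (fun v hv => (hA.isMonic v hv).1)
    (fun v hv => (hA.isMonic v hv).2)
    (fun v hv τ α h => hA.isWeil v hv τ α h)
    (fun v hv σ hσ τ => (hA.isCompat v hv σ hσ).2 τ)
    (fun v hv σ hσ => (hA.isCompat v hv σ hσ).1) (hA.nonScalar hex) _ ?_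
  rintro v hv ⟨Q, hQ, m, hm, hle⟩
  haveI := hQ.1.isPrime
  have hp := MultSystem.norm_mem hv.1 hQ.2
  refine ⟨∑ σ, m σ, hle, ?_⟩
  have h2 := LocDvd.prod Finset.univ m (fun σ => A.cof v (A.n - k) σ) (fun σ _ => hm σ)
  have h3 : ∏ σ : A.E →+* AlgebraicClosure K, A.cof v (A.n - k) σ =
      ((Algebra.norm ℤ ((A.P v).coeff (A.n - k)) : ℤ) : 𝓞 (AlgebraicClosure K)) :=
    (norm_eq_prod_int (AlgebraicClosure K) _).symm
  rw [h3] at h2
  exact h2.int hv.1 hp

theorem dens_good {ι : Type} [Fintype ι] (A : ι → MotSystem K ℓ) (χ : GK K →* (PadicAlgCl ℓ)ˣ)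
    (S : Finset ℕ) (hA : ∀ i, (A i).IsMotive χ S) : Tendsto (dens fun v => ¬ GoodPlace A S v) atTop (𝓝 0) := by
  classical
  let bad : (Σ i : ι, ℕ) → HeightOneSpectrum (𝓞 K) → Prop := fun x v => IsDeg1 S v ∧
    (∃ σ k, (A x.1).Vertex σ k) ∧ 0 < x.2 ∧ x.2 < (A x.1).n ∧
      ∃ Q, IsOver Q v ∧ ∃ u : ((A x.1).E →+* AlgebraicClosure K) → ℕ,
        (∀ σ, LocDvd Q (Ideal.absNorm v.asIdeal) (u σ) ((A x.1).cof v ((A x.1).n - x.2) σ)) ∧
        (A x.1).w * x.2 * Module.finrank ℚ (A x.1).E ≤ 2 * ∑ σ, u σ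
  have hbad : ∀ x, Tendsto (dens (bad x)) atTop (𝓝 0) := by
    rintro ⟨i, j⟩
    by_cases hex : (∃ σ k, (A i).Vertex σ k) ∧ 0 < j ∧ j < (A i).n
    · refine squeeze_zero (fun N => dens_nonneg _ _) (fun N => dens_mono ?_ N)
        (dens_sum (hA i) hex.1 j hex.2.1 hex.2.2)
      rintro v ⟨hv, -, -, -, h⟩
      exact ⟨hv, h⟩
    · have : bad ⟨i, j⟩ = fun _ => False := by
        funext v
        apply propext
        constructor
        · rintro ⟨-, h1, h2, h3, -⟩
          exact hex ⟨h1, h2, h3⟩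
        · exact False.elim
      rw [this]
      exact dens_finite _ (by simp)
  have hun := dens_biUnion (Finset.univ.sigma (fun i : ι => Finset.range (A i).n)) bad (fun x _ => hbad x)
  have h1 := (TH30.Ord.dens_not_deg1 (K := K) S).add hun
  rw [add_zero] at h1
  refine squeeze_zero (fun N => dens_nonneg _ _) (fun N => ?_) h1
  refine le_trans (dens_mono ?_ N) (dens_or _ _ N)
  intro v hv
  by_cases hd : IsDeg1 S v
  · right
    unfold GoodPlace at hv
    push Not at hv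
    obtain ⟨i, hi, j, hj0, hjn, Q, hQ, u, hu, hle⟩ := hv hd
    refine ⟨⟨i, j⟩, ?_, hd, hi, hj0, hjn, Q, hQ, u, hu, hle⟩
    rw [Finset.mem_sigma]
    exact ⟨Finset.mem_univ _, Finset.mem_range.mpr hjn⟩
  · exact Or.inl hd

section fixed

variable {A : MotSystem K ℓ} {χ : GK K →* (PadicAlgCl ℓ)ˣ} {S : Finset ℕ} (hA : A.IsMotive χ S)
  {v : HeightOneSpectrum (𝓞 K)} (hv : IsDeg1 S v)
  {Q : Ideal (𝓞 (AlgebraicClosure K))} (hQ : IsOver Q v)
  {p : ℕ} [hpf : Fact p.Prime] (hpe : Ideal.absNorm v.asIdeal = p) {τ : AlgebraicClosure K →+* PadicAlgCl p}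
  (hτ : ∀ x : 𝓞 (AlgebraicClosure K), x ∈ Q ↔ ‖τ (x : AlgebraicClosure K)‖ < 1)

theorem poly_coeff (σ : A.E →+* AlgebraicClosure K) (j : ℕ) :
    (A.poly v (τ.comp σ)).coeff j = τ ((A.cof v j σ : 𝓞 (AlgebraicClosure K)) : AlgebraicClosure K) := by
  unfold MotSystem.poly
  rw [coeff_map]
  rfl

theorem q_pos (p : ℕ) [Fact p.Prime] : 0 < 1 / (p : ℝ) := by
  have : (0 : ℝ) < p := by exact_mod_cast (Fact.out : p.Prime).pos
  positivity

theorem q_lt (p : ℕ) [Fact p.Prime] : 1 / (p : ℝ) < 1 := by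
  have hp1 : (1 : ℝ) < p := by exact_mod_cast (Fact.out : p.Prime).one_lt
  rw [div_lt_one (by linarith)]
  exact hp1

include hA hv in
theorem poly_monic (σ : A.E →+* AlgebraicClosure K) : (A.poly v (τ.comp σ)).Monic :=
  (hA.isMonic v hv).1.map _

include hA hv in
theorem poly_deg (σ : A.E →+* AlgebraicClosure K) : (A.poly v (τ.comp σ)).natDegree = A.n := by
  obtain ⟨hm, hn⟩ := hA.isMonic v hv
  unfold MotSystem.poly
  rw [hm.natDegree_map, hn]

include hA hv hQ hpe hτ in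
theorem poly_le (σ : A.E →+* AlgebraicClosure K) (k : ℕ) (hk : k ≤ A.n) :
    ‖(A.poly v (τ.comp σ)).coeff (A.n - k)‖ ≤ (1 / (p : ℝ)) ^ ((A.h σ).take k).sum := by
  rw [poly_coeff]
  exact norm_of_locDvd (p := p) hτ (by
    have h := (hA.isMazur v hv Q hQ σ).1 k hk
    rwa [hpe] at h)

include hA hv hQ hpe hτ in
theorem poly_end (σ : A.E →+* AlgebraicClosure K) :
    ‖(A.poly v (τ.comp σ)).coeff 0‖ = (1 / (p : ℝ)) ^ (A.h σ).sum := by
  rw [poly_coeff]
  have hle := (hA.isMazur v hv Q hQ σ).2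
  rw [hpe] at hle
  have := norm_of_locEq (p := p) hτ hle
  rw [this]
  unfold MotSystem.hp
  rw [List.take_of_length_le (le_of_eq (hA.isHodge σ).1)]

include hA hv hQ hpe hτ in
theorem fails_inner (k : ℕ) (h : (fails A v τ k).Nonempty) : 0 < k ∧ k < A.n := by
  obtain ⟨σ, hk, hσ⟩ := h
  constructor
  · rcases Nat.eq_zero_or_pos k with rfl | h0
    · exfalso
      have e : A.hp σ 0 = 0 := by simp [MotSystem.hp]
      rw [e, pow_zero, Nat.sub_zero] at hσ
      exact not_low_zero (poly_monic hA hv σ) (poly_deg hA hv σ) hσ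
    · exact h0
  · rcases lt_or_eq_of_le hk with h0 | rfl
    · exact h0
    · exfalso
      have e : A.hp σ A.n = (A.h σ).sum := by
        unfold MotSystem.hp
        rw [List.take_of_length_le (le_of_eq (hA.isHodge σ).1)]
      rw [e, Nat.sub_self] at hσ
      exact not_low_end (poly_end hA hv hQ hpe hτ σ) hσ

include hA hv hQ hpe hτ in
theorem fails_edge (σ : A.E →+* AlgebraicClosure K) (k₁ k k₂ : ℕ) (h1 : k₁ < k) (h2 : k < k₂)
    (h3 : k₂ ≤ A.n)
    (hc : ∀ i, k₁ ≤ i → i < k₂ → (A.h σ).getD i 0 = (A.h σ).getD k₁ 0) (hσ : σ ∈ fails A v τ k) :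
    σ ∈ fails A v τ k₁ ∨ σ ∈ fails A v τ k₂ := by
  obtain ⟨h1', h2', h3', h4, h5⟩ := hA.isHodge σ
  rcases edge (poly_monic hA hv σ) (poly_deg hA hv σ) (IsAlgClosed.splits _) (q_pos p) (q_lt p) h2' h1'
    (poly_le hA hv hQ hpe hτ σ) (poly_end hA hv hQ hpe hτ σ) k₁ k k₂ h1 h2 h3 hc hσ.2 with h | h
  · exact Or.inl ⟨by omega, h⟩
  · exact Or.inr ⟨h3, h⟩

include hA hv hQ hpe hτ in
theorem fails_empty (hno : ¬ ∃ σ k, A.Vertex σ k) (k : ℕ) : fails A v τ k = ∅ := by
  by_contra hne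
  obtain ⟨σ, hσ⟩ := Set.nonempty_iff_ne_empty.mpr hne
  have hk := fails_inner hA hv hQ hpe hτ k ⟨σ, hσ⟩
  obtain ⟨h1', h2', h3', h4, h5⟩ := hA.isHodge σ
  have hconst : ∀ i, 0 ≤ i → i < A.n → (A.h σ).getD i 0 = (A.h σ).getD 0 0 := by
    intro i hi
    induction i, hi using Nat.le_induction with
    | base => intro _; rfl
    | succ i hai ih =>
      intro hib
      rw [← ih (by omega)]
      have h2 : ¬ ((A.h σ).getD i 0 < (A.h σ).getD (i + 1) 0) := by
        intro h3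
        exact hno ⟨σ, i + 1, by omega, by omega, by simpa using h3⟩
      have h4 : (A.h σ).getD i 0 ≤ (A.h σ).getD (i + 1) 0 := by
        have hi1 : i + 1 < (A.h σ).length := by rw [h1']; omega
        rw [List.getD_eq_getElem _ _ hi1, List.getD_eq_getElem _ _ (by omega : i < (A.h σ).length)]
        exact List.pairwise_iff_getElem.mp h2' i (i + 1) (by omega) hi1 (by omega)
      omega
  rcases fails_edge hA hv hQ hpe hτ σ 0 k A.n hk.1 hk.2 le_rfl hconst hσ with h | h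
  · have := fails_inner hA hv hQ hpe hτ 0 ⟨σ, h⟩
    omega
  · have := fails_inner hA hv hQ hpe hτ A.n ⟨σ, h⟩
    omega

include hA hv hQ hpe hτ in
/-- the Frobenius element does not increase the absolute values of the coefficients -/
theorem frob_norm {γ : GK K} (hγ : ∀ x : 𝓞 (AlgebraicClosure K), γ • x - x ^ Ideal.absNorm v.asIdeal ∈ Q)
    (σ : A.E →+* AlgebraicClosure K) (j : ℕ) :
    ‖(A.poly v (τ.comp (mv γ σ))).coeff j‖ ≤ ‖(A.poly v (τ.comp σ)).coeff j‖ := by
  haveI := hQ.1.isPrime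
  have hpQ := MultSystem.norm_mem hv.1 hQ.2
  rw [poly_coeff, poly_coeff, ← MotSystem.smul_cof]
  by_cases hx : (A.P v).coeff j = 0
  · have e : A.cof v j σ = 0 := by
      unfold MotSystem.cof
      rw [hx, map_zero]
    rw [e, smul_zero]
  · obtain ⟨m, hm⟩ := exists_locEq σ Q _ hv.1 hpQ (hA.isUnram _ hv.1 hv.2) _ hx
    have hd := MultSystem.frob_pow_dvd hγ hm.dvd 1
    rw [pow_one] at hd
    rw [hpe] at hm hd
    have h1 := norm_of_locEq (p := p) hτ hm
    have h2 := norm_of_locDvd (p := p) hτ hd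
    have h3 : ‖τ ((A.cof v j σ : 𝓞 (AlgebraicClosure K)) : AlgebraicClosure K)‖ = (1 / (p : ℝ)) ^ m := h1
    rw [h3]
    exact h2

include hA hv hQ hpe hτ in
theorem fails_stable {γ : GK K}
    (hγ : ∀ x : 𝓞 (AlgebraicClosure K), γ • x - x ^ Ideal.absNorm v.asIdeal ∈ Q) (k : ℕ)
    (σ : A.E →+* AlgebraicClosure K) (hσ : σ ∈ fails A v τ k) : mv γ σ ∈ fails A v τ k := by
  obtain ⟨hk, r, hr, h⟩ := hσ
  refine ⟨hk, r, hr, fun j => ?_⟩
  rw [MotSystem.hp_inv hA]
  exact lt_of_le_of_lt (mul_le_mul_of_nonneg_right (frob_norm hA hv hQ hpe hτ hγ σ j) (by positivity)) (h j)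

include hA hv hQ hpe hτ in
/-- the coefficients at the complex conjugate embedding -/
theorem conj_norm (σ : A.E →+* AlgebraicClosure K) (k : ℕ) (hk : k ≤ A.n) :
    ‖(A.poly v (τ.comp (σ.comp (A.conj : A.E →+* A.E)))).coeff (A.n - k)‖ *
      (1 / (p : ℝ)) ^ A.hp σ A.n =
      (1 / (p : ℝ)) ^ (A.w * k) * ‖(A.poly v (τ.comp σ)).coeff k‖ := by
  have hd := MotSystem.dual_E hA hv k hk
  have h5 := congrArg (RingOfIntegers.mapRingHom σ) hd
  rw [map_mul, map_mul, map_pow, map_natCast] at h5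
  have h6 : A.cof v (A.n - k) (σ.comp (A.conj : A.E →+* A.E)) * A.cof v 0 σ =
    (Ideal.absNorm v.asIdeal : 𝓞 (AlgebraicClosure K)) ^ (A.w * k) * A.cof v k σ := h5
  rw [hpe] at h6
  have h7 := congrArg (fun z : 𝓞 (AlgebraicClosure K) => ‖τ (z : AlgebraicClosure K)‖) h6
  simp only [map_mul, map_pow, map_natCast, norm_mul, norm_pow, norm_p] at h7
  have hle := (hA.isMazur v hv Q hQ σ).2
  rw [hpe] at hle
  rw [norm_of_locEq (p := p) hτ hle] at h7
  rw [poly_coeff, poly_coeff]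
  exact h7

theorem aux (X W r c R : ℝ) (hr : r ≠ 0) (j : ℕ) :
    X * (W / r) ^ j * (c * (r ^ j * R)) = (X * c) * (W ^ j * R) := by
  have h : (W / r) ^ j * r ^ j = W ^ j := by
    rw [← mul_pow, div_mul_cancel₀ _ hr]
  rw [← h]
  ring

include hA hv hQ hpe hτ in
theorem fails_conj (k : ℕ) (hk : k ≤ A.n) (σ : A.E →+* AlgebraicClosure K) (hσ : σ ∈ fails A v τ k) :
    σ.comp (A.conj : A.E →+* A.E) ∈ fails A v τ (A.n - k) := by
  obtain ⟨-, r, hr, h⟩ := hσ
  have hq := q_pos p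
  set q := 1 / (p : ℝ) with hqdef
  refine ⟨Nat.sub_le _ _, q ^ A.w / r, by positivity, fun j => ?_⟩
  rw [show A.n - (A.n - k) = k by omega]
  by_cases hj : j ≤ A.n
  · have h1 := conj_norm hA hv hQ hpe hτ σ (A.n - j) (Nat.sub_le _ _)
    rw [show A.n - (A.n - j) = j by omega, ← hqdef] at h1
    have h2 := h (A.n - j)
    have h3 := MotSystem.hp_conj hA σ (A.n - k) (Nat.sub_le _ _)
    rw [show A.n - (A.n - k) = k by omega] at h3
    set X := ‖(A.poly v (τ.comp (σ.comp (A.conj : A.E →+* A.E)))).coeff j‖ with hX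
    set Y := ‖(A.poly v (τ.comp σ)).coeff (A.n - j)‖ with hY
    -- multiply by `q ^ hp σ n * r ^ n`
    have hpos : 0 < q ^ A.hp σ A.n * r ^ A.n := by positivity
    rw [← mul_lt_mul_iff_left₀ hpos]
    have e1 : X * (q ^ A.w / r) ^ j * (q ^ A.hp σ A.n * r ^ A.n) =
        q ^ (A.w * A.n) * (Y * r ^ (A.n - j)) := by
      have e2 : r ^ A.n = r ^ j * r ^ (A.n - j) := by
        rw [← pow_add]; congr 1; omega
      have e3 : q ^ (A.w * A.n) = q ^ (A.w * (A.n - j)) * (q ^ A.w) ^ j := by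
        rw [← pow_mul, ← pow_add, ← mul_add]
        congr 2
        omega
      rw [e2, aux _ _ _ _ _ hr.ne', h1, e3]
      ring
    have e4 : q ^ A.hp (σ.comp (A.conj : A.E →+* A.E)) (A.n - k) * (q ^ A.w / r) ^ k *
        (q ^ A.hp σ A.n * r ^ A.n) = q ^ (A.w * A.n) * (q ^ A.hp σ k * r ^ (A.n - k)) := by
      have e2 : r ^ A.n = r ^ k * r ^ (A.n - k) := by
        rw [← pow_add]; congr 1; omega
      have e5 : q ^ A.hp (σ.comp (A.conj : A.E →+* A.E)) (A.n - k) * q ^ A.hp σ A.n * (q ^ A.w) ^ k =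
          q ^ (A.w * A.n) * q ^ A.hp σ k := by
        rw [← pow_mul, ← pow_add, ← pow_add, ← pow_add, h3]
        congr 1
        have : A.w * A.n = A.w * (A.n - k) + A.w * k := by
          rw [← mul_add]; congr 1; omega
        omega
      rw [e2, aux _ _ _ _ _ hr.ne', ← mul_assoc, e5]
      ring
    rw [e1, e4]
    exact mul_lt_mul_of_pos_left h2 (by positivity)
  · rw [coeff_eq_zero_of_natDegree_lt (by rw [poly_deg hA hv]; omega), norm_zero, zero_mul]
    positivity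

include hA hv hQ hpe hτ in
/-- an excess at `k` makes the coefficient divisible by a larger power of `p` -/
theorem fails_dvd (k : ℕ) (σ : A.E →+* AlgebraicClosure K) (hσ : σ ∈ fails A v τ k) :
    LocDvd Q (Ideal.absNorm v.asIdeal) (A.hp σ k + 1) (A.cof v (A.n - k) σ) := by
  haveI := hQ.1.isPrime
  have hpQ := MultSystem.norm_mem hv.1 hQ.2
  obtain ⟨hk, r, hr, h⟩ := hσ
  have h1 := lt_of_mul_lt_mul_right (h (A.n - k)) (by positivity)
  rw [poly_coeff] at h1
  refine dichotomy σ Q _ hv.1 hpQ (hA.isUnram _ hv.1 hv.2) _ _ ((hA.isMazur v hv Q hQ σ).1 k hk) ?_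
  intro hle
  rw [hpe] at hle
  have h2 := norm_of_locEq (p := p) hτ hle
  have h3 : ‖τ ((A.cof v (A.n - k) σ : 𝓞 (AlgebraicClosure K)) : AlgebraicClosure K)‖ =
    (1 / (p : ℝ)) ^ A.hp σ k := h2
  rw [h3] at h1
  exact lt_irrefl _ h1

end fixed

/-- **at a good place the sets `fails` form an excess family** -/
theorem isExcess_fails {ι : Type} [Fintype ι] (A : ι → MotSystem K ℓ) (χ : GK K →* (PadicAlgCl ℓ)ˣ)
    (S : Finset ℕ) (hA : ∀ i, (A i).IsMotive χ S) {v : HeightOneSpectrum (𝓞 K)} (hv : GoodPlace A S v)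
    {Q : Ideal (𝓞 (AlgebraicClosure K))} (hQ : IsOver Q v)
    {p : ℕ} [hpf : Fact p.Prime] (hpe : Ideal.absNorm v.asIdeal = p)
    {τ : AlgebraicClosure K →+* PadicAlgCl p}
    (hτ : ∀ x : 𝓞 (AlgebraicClosure K), x ∈ Q ↔ ‖τ (x : AlgebraicClosure K)‖ < 1)
    {γ : GK K} (hγ : ∀ x : 𝓞 (AlgebraicClosure K), γ • x - x ^ Ideal.absNorm v.asIdeal ∈ Q) (i : ι) :
    IsExcess (A i) γ (fails (A i) v τ) := by
  classical
  refine ⟨fails_inner (hA i) hv.1 hQ hpe hτ, fails_stable (hA i) hv.1 hQ hpe hτ hγ,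
    fails_conj (hA i) hv.1 hQ hpe hτ, fun σ k₁ k k₂ h1 h2 h3 hc hσ =>
      fails_edge (hA i) hv.1 hQ hpe hτ σ k₁ k k₂ h1 h2 h3 hc hσ, ?_⟩
  intro k hne
  have hk := fails_inner (hA i) hv.1 hQ hpe hτ k hne
  by_cases hex : ∃ σ k, (A i).Vertex σ k
  · have h1 := hv.2 i hex k hk.1 hk.2 Q hQ
      (fun σ => (A i).hp σ k + (if σ ∈ fails (A i) v τ k then 1 else 0)) ?_
    · have h4 : ∑ σ : (A i).E →+* AlgebraicClosure K,
          ((A i).hp σ k + (if σ ∈ fails (A i) v τ k then 1 else 0)) =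
          ∑ σ : (A i).E →+* AlgebraicClosure K, (A i).hp σ k + (fails (A i) v τ k).ncard := by
        rw [Finset.sum_add_distrib]
        congr 1
        rw [Finset.sum_ite, Finset.sum_const_zero, add_zero, Finset.sum_const, smul_eq_mul, mul_one,
          ← Set.ncard_coe_finset]
        congr 1
        ext σ
        simp
      rw [h4] at h1
      unfold MotSystem.defect
      rw [Finset.sum_sub_distrib, Finset.sum_const, Finset.card_univ, NumberField.Embeddings.card,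
        nsmul_eq_mul, ← Finset.mul_sum]
      zify at h1
      push_cast at h1 ⊢
      linarith
    · intro σ
      by_cases h : σ ∈ fails (A i) v τ k
      · simp only [if_pos h]
        exact fails_dvd (hA i) hv.1 hQ hpe hτ k σ h
      · simp only [if_neg h, add_zero]
        exact ((hA i).isMazur v hv.1 Q hQ σ).1 k hk.2.le
  · exfalso
    rw [fails_empty (hA i) hv.1 hQ hpe hτ hex k] at hne
    exact Set.not_nonempty_empty hne

end

end Pool.Agent.K3h30.NH
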