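import Pool.Agent.W528.Ord.Newton

/-!
# Sorted lists of absolute values and Newton polygons
-/

set_option autoImplicit false
set_option linter.all false

namespace Pool.Agent.K3h30.NH

open Polynomial

/-- the product of the first `k` members -/
noncomputable def pk (ν : List ℝ) (k : ℕ) : ℝ := (ν.take k).prod

/-- the function `r ↦ ∏ max r x` -/
noncomputable def mx (ν : List ℝ) (r : ℝ) : ℝ := (ν.map fun x => max r x).prod

theorem prod_pos_list (ν : List ℝ) (h : ∀ x ∈ ν, 0 < x) : 0 < ν.prod := by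
  induction ν with
  | nil => simp
  | cons a ν ih =>
    rw [List.prod_cons]
    exact mul_pos (h a List.mem_cons_self) (ih fun x hx => h x (List.mem_cons_of_mem _ hx))

theorem pk_pos (ν : List ℝ) (h : ∀ x ∈ ν, 0 < x) (k : ℕ) : 0 < pk ν k :=
  prod_pos_list _ fun x hx => h x (List.mem_of_mem_take hx)

theorem pk_succ (ν : List ℝ) (k : ℕ) (hk : k < ν.length) : pk ν (k + 1) = pk ν k * ν.getD k 1 := by
  unfold pk
  rw [List.take_add_one, List.prod_append, List.getElem?_eq_getElem hk, Option.toList_some,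
    List.prod_singleton, List.getD_eq_getElem _ _ hk]

theorem mx_ge_take (ν : List ℝ) (h : ∀ x ∈ ν, 0 < x) (r : ℝ) (hr : 0 < r) (k : ℕ)
    (hk : k ≤ ν.length) : pk ν k * r ^ (ν.length - k) ≤ mx ν r := by
  induction ν generalizing k with
  | nil =>
    simp only [List.length_nil, Nat.le_zero] at hk
    subst hk
    simp [pk, mx]
  | cons a ν ih =>
    have ha : 0 < a := h a List.mem_cons_self
    have hν : ∀ x ∈ ν, 0 < x := fun x hx => h x (List.mem_cons_of_mem _ hx)
    have hmx : mx (a :: ν) r = max r a * mx ν r := by simp [mx]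
    rcases k with _ | k
    · have h1 := ih hν 0 (Nat.zero_le _)
      rw [hmx, List.length_cons, Nat.sub_zero, pow_succ']
      simp only [pk, List.take_zero, List.prod_nil, one_mul, Nat.sub_zero] at h1 ⊢
      exact mul_le_mul (le_max_left _ _) h1 (by positivity) (by positivity)
    · have h1 := ih hν k (by simpa using hk)
      have h2 : pk (a :: ν) (k + 1) = a * pk ν k := by simp [pk]
      have h3 := pk_pos ν hν k
      rw [hmx, h2, List.length_cons, Nat.add_sub_add_right, mul_assoc]
      exact mul_le_mul (le_max_right _ _) h1 (by positivity) (by positivity)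

theorem mx_eq_take (ν : List ℝ) (hs : ν.Pairwise (· ≥ ·)) (r : ℝ) (k : ℕ) (hk : k ≤ ν.length)
    (h1 : ∀ i, i < k → r ≤ ν.getD i 1) (h2 : ∀ i, k ≤ i → i < ν.length → ν.getD i 1 ≤ r) :
    mx ν r = pk ν k * r ^ (ν.length - k) := by
  induction ν generalizing k with
  | nil =>
    simp only [List.length_nil, Nat.le_zero] at hk
    subst hk
    simp [pk, mx]
  | cons a ν ih =>
    have hmx : mx (a :: ν) r = max r a * mx ν r := by simp [mx]
    have hs' := (List.pairwise_cons.mp hs).2
    rcases k with _ | k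
    · have h3 := ih hs' 0 (Nat.zero_le _) (fun i hi => absurd hi (Nat.not_lt_zero _))
        (fun i _ hi => by
          have := h2 (i + 1) (Nat.zero_le _) (by simpa using hi)
          simpa using this)
      have h4 : a ≤ r := by simpa using h2 0 le_rfl (by simp)
      rw [hmx, h3, max_eq_left h4, List.length_cons, Nat.sub_zero, Nat.sub_zero, pow_succ']
      simp only [pk, List.take_zero, List.prod_nil, one_mul]
    · have h3 := ih hs' k (by simpa using hk)
        (fun i hi => by
          have := h1 (i + 1) (by omega)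
          simpa using this)
        (fun i hi hi' => by
          have := h2 (i + 1) (by omega) (by simpa using hi')
          simpa using this)
      have h4 : r ≤ a := by simpa using h1 0 (by omega)
      have h5 : pk (a :: ν) (k + 1) = a * pk ν k := by simp [pk]
      rw [hmx, h3, max_eq_right h4, h5, List.length_cons, Nat.add_sub_add_right, mul_assoc]

theorem getD_anti {ν : List ℝ} (hs : ν.Pairwise (· ≥ ·)) {i j : ℕ} (hij : i ≤ j) (hj : j < ν.length) :
    ν.getD j 1 ≤ ν.getD i 1 := by
  rcases lt_or_eq_of_le hij with h | rfl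
  · rw [List.getD_eq_getElem _ _ hj, List.getD_eq_getElem _ _ (h.trans hj)]
    exact List.pairwise_iff_getElem.mp hs i j (h.trans hj) hj h
  · exact le_rfl

/-- at the `k`-th member the function `∏ max r x` is known -/
theorem mx_at (ν : List ℝ) (hs : ν.Pairwise (· ≥ ·)) (k : ℕ) (hk : k < ν.length) :
    mx ν (ν.getD k 1) = pk ν (k + 1) * (ν.getD k 1) ^ (ν.length - (k + 1)) :=
  mx_eq_take ν hs _ (k + 1) hk (fun i hi => getD_anti hs (by omega) hk)
    (fun i hi hi' => getD_anti hs (by omega) hi')

section compare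

variable {ν μ : List ℝ} {n : ℕ} (hν : ν.Pairwise (· ≥ ·)) (hμ : μ.Pairwise (· ≥ ·))
  (hν0 : ∀ x ∈ ν, 0 < x) (hμ0 : ∀ x ∈ μ, 0 < x) (hνn : ν.length = n) (hμn : μ.length = n)

theorem getD_pos {ν : List ℝ} (hν0 : ∀ x ∈ ν, 0 < x) (k : ℕ) : 0 < ν.getD k 1 := by
  by_cases hk : k < ν.length
  · rw [List.getD_eq_getElem _ _ hk]
    exact hν0 _ (List.getElem_mem _)
  · rw [List.getD_eq_default _ _ (by omega)]
    exact one_pos

include hμ hν0 hμ0 hνn hμn in
/-- comparison of the partial products -/
theorem pk_le (h : ∀ r : ℝ, 0 < r → mx ν r ≤ mx μ r) (k : ℕ) (hk : k ≤ n) : pk ν k ≤ pk μ k := by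
  rcases k with _ | k
  · simp [pk]
  · have hr := getD_pos hμ0 k
    have h1 := mx_ge_take ν hν0 _ hr (k + 1) (by omega)
    have h2 := mx_at μ hμ k (by omega)
    have h3 := h _ hr
    rw [h2, hμn] at h3
    rw [hνn] at h1
    exact le_of_mul_le_mul_right (h1.trans h3) (by positivity)

include hν hν0 hνn in
/-- if a partial product is small then so is `∏ max r x` for some `r` -/
theorem exists_of_lt {M : ℝ} (k : ℕ) (hk0 : 0 < k) (hk : k ≤ n) (h : pk ν k < M) :
    ∃ r : ℝ, 0 < r ∧ mx ν r < M * r ^ (n - k) := by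
  obtain ⟨j, rfl⟩ := Nat.exists_eq_add_of_le' hk0
  have hr := getD_pos hν0 j
  refine ⟨_, hr, ?_⟩
  rw [mx_at ν hν j (by omega), hνn]
  exact mul_lt_mul_of_pos_right h (by positivity)

include hν0 hνn in
theorem lt_of_exists {M : ℝ} (k : ℕ) (hk : k ≤ n) (h : ∃ r : ℝ, 0 < r ∧ mx ν r < M * r ^ (n - k)) :
    pk ν k < M := by
  obtain ⟨r, hr, h1⟩ := h
  have h2 := mx_ge_take ν hν0 r hr k (by omega)
  rw [hνn] at h2
  exact lt_of_mul_lt_mul_right (h2.trans_lt h1) (by positivity)

include hν0 hμ0 hνn hμn in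
/-- between two equalities the members are equal -/
theorem getD_eq (i : ℕ) (hi : i < n) (h1 : pk ν i = pk μ i) (h2 : pk ν (i + 1) = pk μ (i + 1)) :
    ν.getD i 1 = μ.getD i 1 := by
  rw [pk_succ ν i (by omega), pk_succ μ i (by omega), h1] at h2
  exact mul_left_cancel₀ (pk_pos μ hμ0 i).ne' h2

include hν hν0 hμ0 hνn hμn in
/-- convexity on an edge -/
theorem edge_eq (hle : ∀ k ≤ n, pk ν k ≤ pk μ k) (k₁ k k₂ : ℕ) (h1 : k₁ < k) (h2 : k < k₂) (h3 : k₂ ≤ n)
    (hc : ∀ i, k₁ ≤ i → i < k₂ → μ.getD i 1 = μ.getD k₁ 1) (e1 : pk ν k₁ = pk μ k₁)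
    (e2 : pk ν k₂ = pk μ k₂) : pk ν k = pk μ k := by
  set c := μ.getD k₁ 1 with hcdef
  have hc0 : 0 < c := getD_pos hμ0 _
  have hμk : ∀ j, k₁ ≤ j → j ≤ k₂ → pk μ j = pk μ k₁ * c ^ (j - k₁) := by
    intro j hj
    induction j, hj using Nat.le_induction with
    | base => intro _; simp
    | succ j hj ih =>
      intro hj2
      rw [pk_succ μ j (by omega), ih (by omega), hc j hj (by omega), Nat.succ_sub hj, pow_succ,
        mul_assoc]
  apply le_antisymm (hle k (by omega))
  by_contra hlt
  rw [not_le] at hlt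
  -- some member before `k` is smaller than `c`
  have hex : ∃ i, k₁ ≤ i ∧ i < k ∧ ν.getD i 1 < c := by
    by_contra hcon
    push Not at hcon
    have h4 : ∀ j, k₁ ≤ j → j ≤ k → pk μ j ≤ pk ν j := by
      intro j hj
      induction j, hj using Nat.le_induction with
      | base => intro _; exact e1.ge
      | succ j hj ih =>
        intro hj2
        rw [pk_succ μ j (by omega), pk_succ ν j (by omega), hc j hj (by omega)]
        exact mul_le_mul (ih (by omega)) (hcon j hj (by omega)) hc0.le (pk_pos ν hν0 j).le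
    exact absurd (h4 k h1.le le_rfl) (not_le.mpr hlt)
  obtain ⟨i, hi1, hi2, hi3⟩ := hex
  have h5 : ∀ j, k ≤ j → j ≤ k₂ → pk ν j < pk μ j := by
    intro j hj
    induction j, hj using Nat.le_induction with
    | base => intro _; exact hlt
    | succ j hj ih =>
      intro hj2
      rw [pk_succ μ j (by omega), pk_succ ν j (by omega), hc j (by omega) (by omega)]
      have h6 : ν.getD j 1 ≤ c := (getD_anti hν (by omega) (by omega)).trans hi3.le
      exact mul_lt_mul'' (ih (by omega)) (lt_of_le_of_lt (getD_anti hν (by omega) (by omega)) hi3)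
        (pk_pos ν hν0 j).le (getD_pos hν0 j).le
  exact absurd e2 (h5 k₂ h2.le le_rfl).ne

end compare

end Pool.Agent.K3h30.NH
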