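import Pool.Agent.K3h30.NH.Fails

/-!
# The common part of the Newton polygon and the Hodge polygon
-/

set_option autoImplicit false
set_option linter.all false

namespace Pool.Agent.K3h30.NH

open NumberField IsDedekindDomain Polynomial Filter Topology
open Pool.Agent.W401.Cheb Pool.Agent.W528.Ord
open Pool.Agent.W528.Ord.MultSystem (mv IsDeg1 IsOver)

/-- all slopes of the Newton polygon of `F` at `p`, with the exception of at most `t`, are Hodge
slopes: there is a part `H'` of `H`, which contains all but at most `t` of its members, such that the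
`p ^ (-a)`, `a` in `H'`, are among the absolute values of the roots of `F`, with multiplicity -/
def NearSlopes (p : ℕ) (F : Polynomial ℤ) (H : Multiset ℕ) (t : ℕ) : Prop :=
  ∃ _ : Fact p.Prime, F.natDegree = Multiset.card H ∧ ∃ H' ≤ H, Multiset.card H ≤ Multiset.card H' + t ∧
    (H'.map fun a => (1 / (p : ℝ)) ^ a) ≤
      (F.map (Int.castRingHom (PadicAlgCl p))).roots.map fun y => ‖y‖

/-- The eigenvalues of the `ℓ`-adic matrix `M` are algebraic numbers; their number is the number of the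
members of `H`; there is a part `H'` of `H`, which contains all but at most `t` of the members of `H`,
such that the `p ^ (-a)`, with `a` in `H'`, are among the absolute values of the eigenvalues under the
embedding `τ` of the field of algebraic numbers in `ℚ̄_ℓ` into `ℚ̄_p`, with multiplicity. -/
def NearTau {ℓ p : ℕ} [Fact ℓ.Prime] [Fact p.Prime] {r : ℕ} (M : Matrix (Fin r) (Fin r) ℚ_[ℓ])
    (τ : algebraicClosure ℚ (PadicAlgCl ℓ) →+* PadicAlgCl p) (H : Multiset ℕ) (t : ℕ) : Prop :=
  ∃ e : Multiset (algebraicClosure ℚ (PadicAlgCl ℓ)),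
    e.map (algebraMap _ (PadicAlgCl ℓ)) = (M.charpoly.map (algebraMap ℚ_[ℓ] (PadicAlgCl ℓ))).roots ∧
    Multiset.card e = Multiset.card H ∧
    ∃ H' ≤ H, Multiset.card H ≤ Multiset.card H' + t ∧
      (H'.map fun a => (1 / (p : ℝ)) ^ a) ≤ e.map fun y => ‖τ y‖

theorem nearTau_of {ℓ p : ℕ} [Fact ℓ.Prime] [hp : Fact p.Prime] {r : ℕ} (M : Matrix (Fin r) (Fin r) ℚ_[ℓ])
    (τ : algebraicClosure ℚ (PadicAlgCl ℓ) →+* PadicAlgCl p) (H : Multiset ℕ) (t : ℕ) (F : Polynomial ℤ)
    (hM : M.charpoly = F.map (Int.castRingHom ℚ_[ℓ])) (hF : NearSlopes p F H t) : NearTau M τ H t := by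
  obtain ⟨hp', hdeg, H', h1, h2, h3⟩ := hF
  haveI : IsAlgClosed (algebraicClosure ℚ (PadicAlgCl ℓ)) :=
    (algebraicClosure.isAlgClosure ℚ (PadicAlgCl ℓ)).isAlgClosed
  refine ⟨(F.map (Int.castRingHom (algebraicClosure ℚ (PadicAlgCl ℓ)))).roots, ?_, ?_, H', h1, h2, ?_⟩
  · rw [← Splits.roots_map (IsAlgClosed.splits _), Polynomial.map_map, hM, Polynomial.map_map]
    congr 2
  · rw [splits_iff_card_roots.mp (IsAlgClosed.splits _),
      natDegree_map_eq_of_injective (RingHom.injective_int _), hdeg]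
  · refine h3.trans (le_of_eq ?_)
    have : (F.map (Int.castRingHom (PadicAlgCl p))).roots =
        ((F.map (Int.castRingHom (algebraicClosure ℚ (PadicAlgCl ℓ)))).roots).map τ := by
      rw [← Splits.roots_map (IsAlgClosed.splits _), Polynomial.map_map]
      congr 2
      exact RingHom.ext_int _ _
    rw [this, Multiset.map_map]
    rfl

/-- without exceptions the Newton polygon is the Hodge polygon -/
theorem nearTau_zero {ℓ p : ℕ} [Fact ℓ.Prime] [hp : Fact p.Prime] {r : ℕ} (M : Matrix (Fin r) (Fin r) ℚ_[ℓ])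
    (τ : algebraicClosure ℚ (PadicAlgCl ℓ) →+* PadicAlgCl p) (H : Multiset ℕ) (h : NearTau M τ H 0) :
    NewtonTau M τ H := by
  obtain ⟨e, he, hc, H', h1, h2, h3⟩ := h
  have hH : H' = H := Multiset.eq_of_le_of_card_le h1 (by omega)
  subst hH
  refine ⟨e, he, (Multiset.eq_of_le_of_card_le h3 ?_).symm⟩
  rw [Multiset.card_map, Multiset.card_map, hc]

section

variable {K : Type} [Field K] [NumberField K] {ℓ : ℕ} [Fact ℓ.Prime]

/-- the bound for the number of the slopes at which the polygons differ -/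
noncomputable def wrong {ι : Type} [Fintype ι] (A : ι → MotSystem K ℓ) (m : ι → ℕ) (γ : GK K) : ℕ :=
  ∑ i, m i * number (A i) γ

open Classical in
/-- the slopes of the common part for `σ` -/
noncomputable def common (A : MotSystem K ℓ) (B : ℕ → Set (A.E →+* AlgebraicClosure K))
    (σ : A.E →+* AlgebraicClosure K) : Multiset ℕ :=
  ((Finset.range A.n).filter fun i => σ ∉ B i ∧ σ ∉ B (i + 1)).val.map fun i => (A.h σ).getD i 0

theorem common_le (A : MotSystem K ℓ) (B : ℕ → Set (A.E →+* AlgebraicClosure K))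
    (σ : A.E →+* AlgebraicClosure K) (hn : (A.h σ).length = A.n) :
    common A B σ ≤ (A.h σ : Multiset ℕ) := by
  classical
  unfold common
  rw [← range_map (A.h σ) 0, hn]
  apply Multiset.map_le_map
  rw [← Finset.range_val, Finset.val_le_iff]
  exact Finset.filter_subset _ _

open Classical in
theorem common_card (A : MotSystem K ℓ) (B : ℕ → Set (A.E →+* AlgebraicClosure K))
    (σ : A.E →+* AlgebraicClosure K) :
    Multiset.card (common A B σ) + ∑ i ∈ Finset.range A.n, (if σ ∈ B i ∪ B (i + 1) then 1 else 0) =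
      A.n := by
  unfold common
  rw [Multiset.card_map, Finset.card_val, ← Finset.sum_filter, Finset.sum_const, smul_eq_mul, mul_one]
  have h := Finset.card_filter_add_card_filter_not (s := Finset.range A.n)
    (fun i => σ ∉ B i ∧ σ ∉ B (i + 1))
  rw [Finset.card_range] at h
  have e : (Finset.range A.n).filter (fun i => ¬ (σ ∉ B i ∧ σ ∉ B (i + 1))) =
      (Finset.range A.n).filter (fun i => σ ∈ B i ∪ B (i + 1)) := by
    apply Finset.filter_congr
    intro i _
    rw [Set.mem_union]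
    tauto
  rw [e] at h
  exact h

theorem sum_common_card (A : MotSystem K ℓ) (B : ℕ → Set (A.E →+* AlgebraicClosure K)) :
    ∑ σ : A.E →+* AlgebraicClosure K, Multiset.card (common A B σ) +
      ∑ i ∈ Finset.range A.n, (B i ∪ B (i + 1)).ncard = ∑ σ : A.E →+* AlgebraicClosure K, A.n := by
  classical
  have h : ∑ i ∈ Finset.range A.n, (B i ∪ B (i + 1)).ncard =
      ∑ σ : A.E →+* AlgebraicClosure K, ∑ i ∈ Finset.range A.n, (if σ ∈ B i ∪ B (i + 1) then 1 else 0) := by
    rw [Finset.sum_comm]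
    apply Finset.sum_congr rfl
    intro i _
    exact TH30.Ord.ncard_eq_sum _
  rw [h, ← Finset.sum_add_distrib]
  exact Finset.sum_congr rfl fun σ _ => common_card A B σ

section family

variable {ι : Type} [Fintype ι] (A : ι → MotSystem K ℓ) (m : ι → ℕ) (χ : GK K →* (PadicAlgCl ℓ)ˣ)
  (S : Finset ℕ) (hA : ∀ i, (A i).IsMotive χ S)

include hA in
/-- the common part of the two polygons of the `σ`-part -/
theorem part_near {v : HeightOneSpectrum (𝓞 K)} (hv : IsDeg1 S v)
    {Q : Ideal (𝓞 (AlgebraicClosure K))} (hQ : IsOver Q v)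
    {p : ℕ} [hpf : Fact p.Prime] (hpe : Ideal.absNorm v.asIdeal = p)
    {τ : AlgebraicClosure K →+* PadicAlgCl p}
    (hτ : ∀ x : 𝓞 (AlgebraicClosure K), x ∈ Q ↔ ‖τ (x : AlgebraicClosure K)‖ < 1) (i : ι)
    (σ : (A i).E →+* AlgebraicClosure K) :
    ((common (A i) (fails (A i) v τ) σ).map fun a => (1 / (p : ℝ)) ^ a) ≤
      ((A i).poly v (τ.comp σ)).roots.map fun y => ‖y‖ := by
  classical
  obtain ⟨h1', h2', h3', h4, h5⟩ := (hA i).isHodge σ
  have h := near (poly_monic (hA i) hv σ) (poly_deg (hA i) hv σ) (IsAlgClosed.splits _) (q_pos p) (q_lt p)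
    h2' h1' (poly_le (hA i) hv hQ hpe hτ σ) (poly_end (hA i) hv hQ hpe hτ σ)
    {k | σ ∈ fails (A i) v τ k} (fun k hk hno hlow => hno ⟨hk, hlow⟩)
  unfold common
  rw [Multiset.map_map]
  refine le_trans (le_of_eq ?_) h
  congr 2

include hA in
theorem near_of {v : HeightOneSpectrum (𝓞 K)} (hv : IsDeg1 S v)
    {Q : Ideal (𝓞 (AlgebraicClosure K))} (hQ : IsOver Q v) (G : Polynomial ℤ)
    (hG : G.map (Int.castRingHom (AlgebraicClosure K)) = MotSystem.prodPoly A m v) {t : ℕ}
    {p : ℕ} [hpf : Fact p.Prime] (hpe : Ideal.absNorm v.asIdeal = p)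
    {τ : AlgebraicClosure K →+* PadicAlgCl p}
    (hτ : ∀ x : 𝓞 (AlgebraicClosure K), x ∈ Q ↔ ‖τ (x : AlgebraicClosure K)‖ < 1)
    (ht : ∑ i, m i * ∑ j ∈ Finset.range (A i).n,
      (fails (A i) v τ j ∪ fails (A i) v τ (j + 1)).ncard ≤ t) :
    NearSlopes p G (MotSystem.slopes A m) t := by
  classical
  have hne : ∀ i (σ : (A i).E →+* AlgebraicClosure K), (A i).poly v (τ.comp σ) ≠ 0 := by
    intro i σ
    exact (poly_monic (hA i) hv σ).ne_zero
  have hG2 : G.map (Int.castRingHom (PadicAlgCl p)) =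
      ∏ i, ∏ σ : (A i).E →+* AlgebraicClosure K, ((A i).poly v (τ.comp σ)) ^ m i := by
    have e1 : τ.comp (Int.castRingHom (AlgebraicClosure K)) = Int.castRingHom (PadicAlgCl p) :=
      RingHom.ext_int _ _
    rw [← e1, ← Polynomial.map_map, hG]
    unfold MotSystem.prodPoly
    rw [Polynomial.map_prod]
    apply Finset.prod_congr rfl
    intro i _
    rw [Polynomial.map_prod]
    apply Finset.prod_congr rfl
    intro σ _
    unfold MotSystem.poly
    rw [Polynomial.map_pow, Polynomial.map_map]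
    rfl
  have hcardH : Multiset.card (MotSystem.slopes A m) =
      ∑ i, m i * ∑ σ : (A i).E →+* AlgebraicClosure K, (A i).n := by
    unfold MotSystem.slopes
    rw [Multiset.card_sum]
    apply Finset.sum_congr rfl
    intro i _
    rw [Multiset.card_nsmul, Multiset.card_sum]
    congr 1
    apply Finset.sum_congr rfl
    intro σ _
    rw [Multiset.coe_card, ((hA i).isHodge σ).1]
  have hdeg : G.natDegree = Multiset.card (MotSystem.slopes A m) := by
    rw [hcardH, ← natDegree_map_eq_of_injective (RingHom.injective_int (Int.castRingHom (PadicAlgCl p))),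
      hG2, natDegree_prod _ _ (fun i _ => Finset.prod_ne_zero_iff.mpr fun σ _ => pow_ne_zero _ (hne i σ))]
    apply Finset.sum_congr rfl
    intro i _
    rw [natDegree_prod _ _ (fun σ _ => pow_ne_zero _ (hne i σ)), Finset.mul_sum]
    apply Finset.sum_congr rfl
    intro σ _
    rw [natDegree_pow, poly_deg (hA i) hv]
  refine ⟨inferInstance, hdeg, ∑ i, m i • ∑ σ : (A i).E →+* AlgebraicClosure K,
    common (A i) (fails (A i) v τ) σ, ?_, ?_, ?_⟩
  · unfold MotSystem.slopes
    apply Finset.sum_le_sum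
    intro i _
    apply nsmul_le_nsmul_right
    apply Finset.sum_le_sum
    intro σ _
    exact common_le _ _ _ ((hA i).isHodge σ).1
  · rw [hcardH, Multiset.card_sum]
    refine le_trans ?_ (Nat.add_le_add_left ht _)
    rw [← Finset.sum_add_distrib]
    apply Finset.sum_le_sum
    intro i _
    rw [Multiset.card_nsmul, Multiset.card_sum, ← mul_add]
    apply Nat.mul_le_mul_left
    rw [sum_common_card]
  · rw [hG2, MotSystem.roots_prod_norm _ _
      (fun i _ => Finset.prod_ne_zero_iff.mpr fun σ _ => pow_ne_zero _ (hne i σ)),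
      MotSystem.map_sum_multiset]
    apply Finset.sum_le_sum
    intro i _
    rw [MotSystem.roots_prod_norm _ _ (fun σ _ => pow_ne_zero _ (hne i σ)), Multiset.map_nsmul,
      MotSystem.map_sum_multiset, Finset.smul_sum]
    apply Finset.sum_le_sum
    intro σ _
    rw [roots_pow, Multiset.map_nsmul]
    apply nsmul_le_nsmul_right
    exact part_near A χ S hA hv hQ hpe hτ i σ

include hA in
/-- **the bound at a good place** -/
theorem near_good {v : HeightOneSpectrum (𝓞 K)} (hv : GoodPlace A S v) {γ : GK K} (hγ : IsFrob v γ)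
    (G : Polynomial ℤ)
    (hG : G.map (Int.castRingHom (AlgebraicClosure K)) = MotSystem.prodPoly A m v) {t : ℕ}
    (ht : wrong A m γ ≤ t) :
    NearSlopes (Ideal.absNorm v.asIdeal) G (MotSystem.slopes A m) t := by
  classical
  obtain ⟨Q, hQm, hQv, hγQ⟩ := hγ
  obtain ⟨p, hpe⟩ : ∃ p, Ideal.absNorm v.asIdeal = p := ⟨_, rfl⟩
  have hpp : p.Prime := hpe ▸ hv.1.1
  haveI : Fact p.Prime := ⟨hpp⟩
  have hpQ := MultSystem.norm_mem hv.1.1 hQv
  rw [hpe] at hpQ
  obtain ⟨τ, hτ⟩ := exists_tau (p := p) Q hQm hpQ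
  rw [hpe]
  refine near_of A m χ S hA hv.1 ⟨hQm, hQv⟩ G hG hpe hτ (le_trans ?_ ht)
  unfold wrong
  apply Finset.sum_le_sum
  intro i _
  apply Nat.mul_le_mul_left
  exact le_number (isExcess_fails A χ S hA hv ⟨hQm, hQv⟩ hpe hτ hγQ i)

include hA in
/-- the places with Frobenius elements which behave like `γ₀` have positive density -/
theorem like_dens (γ₀ : GK K) : ∃ δ : ℝ, 0 < δ ∧
    Tendsto (dens fun v : HeightOneSpectrum (𝓞 K) => ∃ γ : GK K, IsFrob v γ ∧
      ∀ i, number (A i) γ ≤ number (A i) γ₀) atTop (𝓝 δ) := by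
  haveI := MotSystem.fixU_normal A
  haveI : Finite (GK K ⧸ MotSystem.fixU A) :=
    Subgroup.quotient_finite_of_isOpen _ (MotSystem.fixU_open A)
  have h := chebK K (MotSystem.fixU A) (MotSystem.fixU_open A)
    {γ | ∀ i, number (A i) γ ≤ number (A i) γ₀}
    (fun σ hσ τ i => (number_conj (fun γ σ => ((hA i).isHodge σ).2.2.2.2 γ) σ τ).trans (hσ i))
    (fun σ hσ u hu i => (number_fix A i hu).trans (hσ i))
  refine ⟨(((QuotientGroup.mk : GK K → GK K ⧸ MotSystem.fixU A) ''
      {γ | ∀ i, number (A i) γ ≤ number (A i) γ₀}).ncard : ℝ) /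
    (Nat.card (GK K ⧸ MotSystem.fixU A) : ℝ), ?_, ?_⟩
  · apply div_pos
    · have : 0 < ((QuotientGroup.mk : GK K → GK K ⧸ MotSystem.fixU A) ''
          {γ | ∀ i, number (A i) γ ≤ number (A i) γ₀}).ncard := by
        rw [Set.ncard_pos (Set.toFinite _)]
        exact ⟨_, γ₀, fun i => le_refl _, rfl⟩
      exact_mod_cast this
    · exact_mod_cast Nat.card_pos
  · have e : (fun v : HeightOneSpectrum (𝓞 K) => ∃ σ ∈ {γ : GK K | ∀ i, number (A i) γ ≤
        number (A i) γ₀}, IsFrob v σ) =
        fun v => ∃ γ : GK K, IsFrob v γ ∧ ∀ i, number (A i) γ ≤ number (A i) γ₀ := by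
      funext v
      apply propext
      constructor
      · rintro ⟨σ, h1, h2⟩
        exact ⟨σ, h2, h1⟩
      · rintro ⟨σ, h1, h2⟩
        exact ⟨σ, h2, h1⟩
    rw [e] at h
    exact h

include hA in
theorem lower_K (γ₀ : GK K) : ∃ δ : ℝ, 0 < δ ∧ ∀ᶠ N : ℕ in atTop, δ ≤ dens (fun v =>
    GoodPlace A S v ∧ ∃ γ : GK K, IsFrob v γ ∧ ∀ i, number (A i) γ ≤ number (A i) γ₀) N := by
  obtain ⟨δ, hδ, hlim⟩ := like_dens A χ S hA γ₀
  have h1 := dens_good A χ S hA
  refine ⟨δ / 2, by positivity, ?_⟩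
  have e0 := hlim.eventually (lt_mem_nhds (show 3 * δ / 4 < δ by linarith))
  have e1 := h1.eventually (gt_mem_nhds (show (0:ℝ) < δ / 4 by positivity))
  filter_upwards [e0, e1] with N h0 h1
  have hle : dens (fun v : HeightOneSpectrum (𝓞 K) => ∃ γ : GK K, IsFrob v γ ∧
      ∀ i, number (A i) γ ≤ number (A i) γ₀) N ≤
      dens (fun v => GoodPlace A S v ∧ ∃ γ : GK K, IsFrob v γ ∧
        ∀ i, number (A i) γ ≤ number (A i) γ₀) N +
      dens (fun v => ¬ GoodPlace A S v) N := by
    refine le_trans (dens_mono ?_ N) (dens_or _ _ N)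
    intro v hv
    by_cases hg : GoodPlace A S v
    · exact Or.inl ⟨hg, hv⟩
    · exact Or.inr hg
  linarith

end family

end

end Pool.Agent.K3h30.NH
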