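import Pool.Agent.K3h30.NH.Lists

/-!
# The places where the Newton polygon leaves the Hodge polygon
-/

set_option autoImplicit false
set_option linter.all false

namespace Pool.Agent.K3h30.NH

open Polynomial

section

variable {L : Type*} [NormedField L]

/-- `Low f M m`: for some radius `r` all terms of `f` are smaller than `M r ^ m` -/
def Low (f : L[X]) (M : ℝ) (m : ℕ) : Prop :=
  ∃ r : ℝ, 0 < r ∧ ∀ j : ℕ, ‖f.coeff j‖ * r ^ j < M * r ^ m

/-- the absolute values of the roots, in decreasing order -/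
noncomputable def rn (f : L[X]) : List ℝ := (f.roots.map fun y => ‖y‖).sort (· ≥ ·)

theorem rn_coe (f : L[X]) : (rn f : Multiset ℝ) = f.roots.map fun y => ‖y‖ := Multiset.sort_eq _ _

theorem rn_sorted (f : L[X]) : (rn f).Pairwise (· ≥ ·) := Multiset.pairwise_sort _ _

theorem mx_rn (f : L[X]) (r : ℝ) : mx (rn f) r = (f.roots.map fun y => max r ‖y‖).prod := by
  unfold mx
  rw [← Multiset.prod_coe, ← Multiset.map_coe, rn_coe, Multiset.map_map]
  rfl

theorem rn_pos (f : L[X]) (h0 : f.coeff 0 ≠ 0) : ∀ x ∈ rn f, 0 < x := by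
  intro x hx
  have hx' : x ∈ (rn f : Multiset ℝ) := hx
  rw [rn_coe] at hx'
  obtain ⟨y, hy, rfl⟩ := Multiset.mem_map.mp hx'
  rw [norm_pos_iff]
  rintro rfl
  apply h0
  have := isRoot_of_mem_roots hy
  rwa [IsRoot, ← coeff_zero_eq_eval_zero] at this

theorem rn_length (f : L[X]) (hs : f.Splits) : (rn f).length = f.natDegree := by
  have h : Multiset.card (rn f : Multiset ℝ) = f.natDegree := by
    rw [rn_coe, Multiset.card_map]
    exact splits_iff_card_roots.mp hs
  simpa using h

variable [IsUltrametricDist L]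

theorem gauss_rn (f : L[X]) (hm : f.Monic) (hs : f.Splits) {r : ℝ} (hr : 0 < r) :
    f.gaussNorm (NormedField.toAbsoluteValue L) r = mx (rn f) r := by
  have hna : IsNonarchimedean (NormedField.toAbsoluteValue L) :=
    fun x y => IsUltrametricDist.norm_add_le_max x y
  have hprod : f = (f.roots.map fun y => X - C y).prod := by
    conv_lhs => rw [hs.eq_prod_roots, hm.leadingCoeff, C_1, one_mul]
  have h1 := Pool.Agent.W518.DN.gn_linear (v := NormedField.toAbsoluteValue L) hna hr f.roots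
  rw [← hprod] at h1
  rw [h1, mx_rn]
  rfl

theorem coeff_le (f : L[X]) (hm : f.Monic) (hs : f.Splits) {r : ℝ} (hr : 0 < r) (j : ℕ) :
    ‖f.coeff j‖ * r ^ j ≤ mx (rn f) r := by
  rw [← gauss_rn f hm hs hr]
  exact Polynomial.le_gaussNorm (NormedField.toAbsoluteValue L) f hr.le j

theorem exists_coeff (f : L[X]) (hm : f.Monic) (hs : f.Splits) {r : ℝ} (hr : 0 < r) :
    ∃ j, mx (rn f) r = ‖f.coeff j‖ * r ^ j := by
  rw [← gauss_rn f hm hs hr]
  exact Polynomial.exists_eq_gaussNorm (NormedField.toAbsoluteValue L) r f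

theorem low_iff (f : L[X]) (hm : f.Monic) (hs : f.Splits) (M : ℝ) (m : ℕ) :
    Low f M m ↔ ∃ r : ℝ, 0 < r ∧ mx (rn f) r < M * r ^ m := by
  constructor
  · rintro ⟨r, hr, h⟩
    obtain ⟨j, hj⟩ := exists_coeff f hm hs hr
    exact ⟨r, hr, hj ▸ h j⟩
  · rintro ⟨r, hr, h⟩
    exact ⟨r, hr, fun j => (coeff_le f hm hs hr j).trans_lt h⟩

end

/-- the list of the absolute values with the slopes `l` -/
noncomputable def pw (q : ℝ) (l : List ℕ) : List ℝ := l.map fun a => q ^ a

section slopes

variable {q : ℝ} (hq0 : 0 < q) (hq1 : q < 1) {l : List ℕ} (hl : l.Pairwise (· ≤ ·))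

theorem pk_pw (q : ℝ) (l : List ℕ) (k : ℕ) : pk (pw q l) k = q ^ (l.take k).sum := by
  unfold pk pw
  rw [← List.map_take, W528.Ord.prod_pow_sum]

include hq0 in
theorem pw_pos (l : List ℕ) : ∀ x ∈ pw q l, 0 < x := by
  intro x hx
  unfold pw at hx
  obtain ⟨a, -, rfl⟩ := List.mem_map.mp hx
  positivity

include hq0 hq1 hl in
theorem pw_sorted : (pw q l).Pairwise (· ≥ ·) := by
  unfold pw
  rw [List.pairwise_map]
  exact hl.imp fun h => pow_le_pow_of_le_one hq0.le hq1.le h

theorem pw_length (q : ℝ) (l : List ℕ) : (pw q l).length = l.length := by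
  unfold pw
  rw [List.length_map]

theorem pw_getD (q : ℝ) (l : List ℕ) (i : ℕ) : (pw q l).getD i 1 = q ^ (l.getD i 0) := by
  unfold pw
  by_cases hi : i < l.length
  · rw [List.getD_eq_getElem _ _ (by rw [List.length_map]; exact hi), List.getD_eq_getElem _ _ hi,
      List.getElem_map]
  · rw [List.getD_eq_default _ _ (by rw [List.length_map]; omega),
      List.getD_eq_default _ _ (by omega), pow_zero]

end slopes

section main

variable {L : Type*} [NormedField L] [IsUltrametricDist L] {f : L[X]} {n : ℕ} (hm : f.Monic)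
  (hn : f.natDegree = n) (hs : f.Splits) {q : ℝ} (hq0 : 0 < q) (hq1 : q < 1) {l : List ℕ}
  (hl : l.Pairwise (· ≤ ·)) (hlen : l.length = n)
  (hle : ∀ k ≤ n, ‖f.coeff (n - k)‖ ≤ q ^ (l.take k).sum) (hend : ‖f.coeff 0‖ = q ^ l.sum)

include hq0 hend in
theorem coeff_zero_ne : f.coeff 0 ≠ 0 := by
  intro h
  rw [h, norm_zero] at hend
  exact (pow_pos hq0 _).ne hend

include hm hn hs hq0 hlen hle in
theorem mx_le_mx (r : ℝ) (hr : 0 < r) : mx (rn f) r ≤ mx (pw q l) r := by
  obtain ⟨j, hj⟩ := exists_coeff f hm hs hr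
  rw [hj]
  by_cases hi : j ≤ n
  · have h3 := hle (n - j) (by omega)
    rw [show n - (n - j) = j by omega] at h3
    have h4 := mx_ge_take (pw q l) (pw_pos hq0 l) r hr (n - j) (by rw [pw_length]; omega)
    rw [pk_pw, pw_length, hlen, show n - (n - j) = j by omega] at h4
    exact (mul_le_mul_of_nonneg_right h3 (by positivity)).trans h4
  · rw [coeff_eq_zero_of_natDegree_lt (by omega), norm_zero, zero_mul]
    have h4 := mx_ge_take (pw q l) (pw_pos hq0 l) r hr 0 (Nat.zero_le _)
    refine le_trans ?_ h4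
    have := pk_pos (pw q l) (pw_pos hq0 l) 0
    positivity

include hm hn hs hq0 hq1 hl hlen hle hend in
theorem pk_le_pk (k : ℕ) (hk : k ≤ n) : pk (rn f) k ≤ pk (pw q l) k :=
  pk_le (pw_sorted hq0 hq1 hl) (rn_pos f (coeff_zero_ne hq0 hend)) (pw_pos hq0 l)
    (by rw [rn_length f hs, hn]) (by rw [pw_length, hlen])
    (fun r hr => mx_le_mx hm hn hs hq0 hlen hle r hr) k hk

include hm in
/-- no excess at the left end -/
theorem not_low_zero (hn : f.natDegree = n) : ¬ Low f 1 n := by
  rintro ⟨r, hr, h⟩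
  have h1 := h n
  rw [← hn, hm.coeff_natDegree, norm_one] at h1
  exact lt_irrefl _ h1

include hend in
/-- no excess at the right end -/
theorem not_low_end : ¬ Low f (q ^ l.sum) 0 := by
  rintro ⟨r, hr, h⟩
  have h1 := h 0
  rw [pow_zero, hend] at h1
  exact lt_irrefl _ h1

include hm hn hs hq0 hq1 hl hlen hle hend in
theorem pk_eq (k : ℕ) (hk : k ≤ n) (h : ¬ Low f (q ^ (l.take k).sum) (n - k)) :
    pk (rn f) k = pk (pw q l) k := by
  rcases Nat.eq_zero_or_pos k with rfl | hk0
  · simp [pk]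
  · apply le_antisymm (pk_le_pk hm hn hs hq0 hq1 hl hlen hle hend k hk)
    by_contra hlt
    rw [not_le, pk_pw] at hlt
    apply h
    rw [low_iff f hm hs]
    exact exists_of_lt (rn_sorted f) (rn_pos f (coeff_zero_ne hq0 hend))
      (by rw [rn_length f hs, hn]) k hk0 hk hlt

include hm hn hs hq0 hq1 hl hlen hle hend in
/-- **convexity**: an excess inside an edge of the Hodge polygon gives one at an end of the edge -/
theorem edge (k₁ k k₂ : ℕ) (h1 : k₁ < k) (h2 : k < k₂) (h3 : k₂ ≤ n)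
    (hc : ∀ i, k₁ ≤ i → i < k₂ → l.getD i 0 = l.getD k₁ 0)
    (h : Low f (q ^ (l.take k).sum) (n - k)) :
    Low f (q ^ (l.take k₁).sum) (n - k₁) ∨ Low f (q ^ (l.take k₂).sum) (n - k₂) := by
  by_contra hcon
  push Not at hcon
  have e1 := pk_eq hm hn hs hq0 hq1 hl hlen hle hend k₁ (by omega) hcon.1
  have e2 := pk_eq hm hn hs hq0 hq1 hl hlen hle hend k₂ h3 hcon.2
  have h0 := rn_pos f (coeff_zero_ne hq0 hend)
  have e3 := edge_eq (rn_sorted f) h0 (pw_pos hq0 l)
    (by rw [rn_length f hs, hn]) (by rw [pw_length, hlen])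
    (pk_le_pk hm hn hs hq0 hq1 hl hlen hle hend) k₁ k k₂ h1 h2 h3
    (fun i hi hi' => by rw [pw_getD, pw_getD, hc i hi hi']) e1 e2
  rw [low_iff f hm hs] at h
  have h4 := lt_of_exists h0 (by rw [rn_length f hs, hn]) k (by omega) h
  rw [e3, pk_pw] at h4
  exact lt_irrefl _ h4

theorem range_map {α : Type*} (a : List α) (d : α) :
    (Multiset.range a.length).map (fun i => a.getD i d) = (a : Multiset α) := by
  rw [Multiset.range, Multiset.map_coe]
  congr 1
  apply List.ext_getElem
  · simp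
  · intro i h1 h2
    simp only [List.getElem_map, List.getElem_range]
    rw [List.getD_eq_getElem _ _ h2]

open Classical in
include hm hn hs hq0 hq1 hl hlen hle hend in
/-- **the common part of the Newton and the Hodge polygon** -/
theorem near (T : Set ℕ) (hT : ∀ k ≤ n, k ∉ T → ¬ Low f (q ^ (l.take k).sum) (n - k)) :
    (((Finset.range n).filter fun i => i ∉ T ∧ i + 1 ∉ T).val.map fun i => q ^ (l.getD i 0)) ≤
      f.roots.map fun y => ‖y‖ := by
  have h0 := rn_pos f (coeff_zero_ne hq0 hend)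
  have hln : (rn f).length = n := by rw [rn_length f hs, hn]
  have e : (((Finset.range n).filter fun i => i ∉ T ∧ i + 1 ∉ T).val.map fun i => q ^ (l.getD i 0)) =
      (((Finset.range n).filter fun i => i ∉ T ∧ i + 1 ∉ T).val.map fun i => (rn f).getD i 1) := by
    apply Multiset.map_congr rfl
    intro i hi
    rw [Finset.mem_val, Finset.mem_filter, Finset.mem_range] at hi
    obtain ⟨hi, h1, h2⟩ := hi
    rw [← pw_getD]
    exact (getD_eq h0 (pw_pos hq0 l) hln (by rw [pw_length, hlen]) i hi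
      (pk_eq hm hn hs hq0 hq1 hl hlen hle hend i hi.le (hT i hi.le h1))
      (pk_eq hm hn hs hq0 hq1 hl hlen hle hend (i + 1) hi (hT (i + 1) hi h2))).symm
  rw [e, ← rn_coe, ← range_map (rn f) 1, hln]
  apply Multiset.map_le_map
  rw [← Finset.range_val, Finset.val_le_iff]
  exact Finset.filter_subset _ _

end main

end Pool.Agent.K3h30.NH
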